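import Pool.Agent.H211.HY.Stm6
import Pool.Agent.H747.HY211.CHO
import Pool.Agent.H906.BD.Hol
import Pool.Graph.R_seed8.H790R3.RB.TPQ

/-!
# Project HY (helper211), part 6, task UE: uniform estimates near a map
-/

set_option autoImplicit false

open Topology Filter Metric Set MeasureTheory Polynomial

namespace Pool.Agent.H233.HY211

open Pool.Agent.H790R3.RB Pool.Agent.H211.HY
open Pool.Agent.H747.HY211.CHO

namespace UE

/-! ### The Jacobian is not identically zero (as in `HYPC.lean` of helper37) -/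

theorem wr_line {d : ℕ} (hd : 2 ≤ d) (x : CV d) (ζ : ℂ) :
    wr x (ζ, 1) = (d : ℂ) * (((derivative (pol x 0)).eval ζ) * (pol x 1).eval ζ -
      (pol x 0).eval ζ * (derivative (pol x 1)).eval ζ) := by
  obtain ⟨-, -, hjac⟩ := WR d x hd
  have h1 := hjac (ζ, 1) (ζ, 1) (1, 0)
  rw [euler] at h1
  have hline : HasDerivAt (fun z : ℂ => ((z, 1) : ℂ × ℂ)) (1, 0) ζ :=
    (hasDerivAt_id ζ).prodMk (hasDerivAt_const ζ (1 : ℂ))
  have hG : DifferentiableAt ℂ (hF x) ((ζ, 1) : ℂ × ℂ) := differentiable_hF x _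
  have hcomp : HasDerivAt (fun z : ℂ => hF x (z, 1)) (fderiv ℂ (hF x) (ζ, 1) (1, 0)) ζ :=
    HasFDerivAt.comp_hasDerivAt ζ (f := fun z : ℂ => ((z, 1) : ℂ × ℂ)) hG.hasFDerivAt hline
  have hpol : HasDerivAt (fun z : ℂ => hF x (z, 1))
      ((derivative (pol x 0)).eval ζ, (derivative (pol x 1)).eval ζ) ζ := by
    have h2 := ((pol x 0).hasDerivAt ζ).prodMk ((pol x 1).hasDerivAt ζ)
    have h3 : (fun z : ℂ => hF x (z, 1)) =
        fun z : ℂ => ((pol x 0).eval z, (pol x 1).eval z) := by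
      funext z
      exact PQ.hF_one x z
    rw [h3]
    exact h2
  have h4 := hcomp.unique hpol
  rw [h4, PQ.hF_one] at h1
  simp only [cr, Prod.smul_fst, Prod.smul_snd, smul_eq_mul] at h1
  linear_combination h1

theorem wr_ne {d : ℕ} (hd : 2 ≤ d) (x : CV d) (hx : ND x) : ∃ ζ : ℂ, wr x (ζ, 1) ≠ 0 := by
  by_contra hcon
  push Not at hcon
  obtain ⟨hcop, hdeg⟩ := PQ.part1 (by omega) x hx
  have hd0 : (d : ℂ) ≠ 0 := by
    have : d ≠ 0 := by omega
    exact_mod_cast this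
  have hW : derivative (pol x 0) * pol x 1 = pol x 0 * derivative (pol x 1) := by
    apply Polynomial.funext
    intro ζ
    have h1 := hcon ζ
    rw [wr_line hd] at h1
    have h2 := (mul_eq_zero.1 h1).resolve_left hd0
    rw [eval_mul, eval_mul]
    exact sub_eq_zero.1 h2
  have key : ∀ P : ℂ[X], P ∣ derivative P → P.natDegree = 0 := by
    intro P hP
    by_contra hne
    have h0 : derivative P ≠ 0 := by
      intro h
      exact hne (Polynomial.derivative_eq_zero.1 h)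
    have h1 := Polynomial.natDegree_le_of_dvd hP h0
    have h2 := Polynomial.natDegree_derivative_lt hne
    omega
  have hP : pol x 0 ∣ derivative (pol x 0) := by
    have h1 : pol x 0 ∣ derivative (pol x 0) * pol x 1 := by
      rw [hW]; exact dvd_mul_right _ _
    exact hcop.dvd_of_dvd_mul_right h1
  have hQ : pol x 1 ∣ derivative (pol x 1) := by
    have h1 : pol x 1 ∣ pol x 0 * derivative (pol x 1) := by
      rw [← hW]; exact dvd_mul_left _ _
    exact hcop.symm.dvd_of_dvd_mul_left h1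
  have h0 := key _ hP
  have h1 := key _ hQ
  rw [h0, h1] at hdeg
  simp at hdeg
  omega

/-! ### Binary forms -/

/-- a binary form splits into linear factors -/
theorem form_splits (N : ℕ) (f : ℂ × ℂ → ℂ) (W : ℂ[X]) (h1 : ∀ (a : ℂ) (p : ℂ × ℂ),
    f (a • p) = a ^ N * f p) (h2 : W.natDegree ≤ N) (h3 : ∀ ζ, W.eval ζ = f (ζ, 1))
    (h4 : W.coeff N = f (1, 0)) (_hW : W ≠ 0) :
    ∃ (A : ℂ) (s : Multiset (ℂ × ℂ)), s.card = N ∧ (∀ c ∈ s, c ≠ 0) ∧
      ∀ p, f p = A * (s.map (fun c => cr p c)).prod := by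
  refine ⟨W.leadingCoeff, W.roots.map (fun r => ((r, 1) : ℂ × ℂ)) +
    Multiset.replicate (N - W.natDegree) ((-1, 0) : ℂ × ℂ), ?_, ?_, ?_⟩
  · rw [Multiset.card_add, Multiset.card_map, Multiset.card_replicate,
      IsAlgClosed.card_roots_eq_natDegree]
    omega
  · intro c hc
    rw [Multiset.mem_add, Multiset.mem_map] at hc
    rcases hc with ⟨r, -, rfl⟩ | hc
    · intro h
      have := congrArg Prod.snd h
      simp at this
    · rw [Multiset.eq_of_mem_replicate hc]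
      intro h
      have := congrArg Prod.fst h
      simp at this
  · intro p
    have e1 : ((W.roots.map (fun r => ((r, 1) : ℂ × ℂ)) +
        Multiset.replicate (N - W.natDegree) ((-1, 0) : ℂ × ℂ)).map (fun c => cr p c)).prod =
        (W.roots.map (fun r => p.1 - p.2 * r)).prod * p.2 ^ (N - W.natDegree) := by
      rw [Multiset.map_add, Multiset.prod_add, Multiset.map_map, Multiset.map_replicate,
        Multiset.prod_replicate]
      congr 1
      · congr 1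
        apply Multiset.map_congr rfl
        intro r _
        simp [cr]
      · congr 1
        simp [cr]
    rw [e1]
    by_cases hp : p.2 = 0
    · have e2 : p = p.1 • ((1, 0) : ℂ × ℂ) := by
        apply Prod.ext
        · simp
        · simp [hp]
      rw [hp]
      have e3 : (W.roots.map (fun r => p.1 - 0 * r)).prod = p.1 ^ W.natDegree := by
        simp only [zero_mul, sub_zero, Multiset.map_const', Multiset.prod_replicate,
          IsAlgClosed.card_roots_eq_natDegree]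
      rw [e3]
      have e4 : f p = p.1 ^ N * W.coeff N := by
        rw [h4]
        conv_lhs => rw [e2]
        exact h1 _ _
      rw [e4]
      rcases Nat.lt_or_ge W.natDegree N with h | h
      · rw [Polynomial.coeff_eq_zero_of_natDegree_lt h, zero_pow (by omega)]
        ring
      · have e5 : W.natDegree = N := by omega
        rw [e5, Nat.sub_self, pow_zero, Polynomial.leadingCoeff, e5]
        ring
    · have e2 : p = p.2 • ((p.1 / p.2, 1) : ℂ × ℂ) := by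
        apply Prod.ext
        · simp [mul_div_cancel₀ _ hp]
        · simp
      have e4 : f p = p.2 ^ N * W.eval (p.1 / p.2) := by
        rw [h3]
        conv_lhs => rw [e2]
        exact h1 _ _
      have e5 : W.eval (p.1 / p.2) = W.leadingCoeff *
          (W.roots.map (fun r => p.1 / p.2 - r)).prod := by
        have e6 := (IsAlgClosed.splits W).eq_prod_roots
        conv_lhs => rw [e6]
        rw [eval_mul, eval_C, Polynomial.eval_multiset_prod, Multiset.map_map]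
        congr 2
        apply Multiset.map_congr rfl
        intro r _
        simp
      have e7 : (W.roots.map (fun r => p.1 - p.2 * r)).prod =
          p.2 ^ W.natDegree * (W.roots.map (fun r => p.1 / p.2 - r)).prod := by
        have e8 : (fun r : ℂ => p.1 - p.2 * r) = fun r => p.2 * (p.1 / p.2 - r) := by
          funext r
          field_simp
        rw [e8, Multiset.prod_map_mul, Multiset.map_const', Multiset.prod_replicate,
          IsAlgClosed.card_roots_eq_natDegree]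
      rw [e4, e5, e7]
      have e9 : p.2 ^ N = p.2 ^ W.natDegree * p.2 ^ (N - W.natDegree) := by
        rw [← pow_add]
        congr 1
        omega
      rw [e9]
      ring

/-- a lower bound for products over a multiset -/
theorem ms_prod_lower {t : ℝ} (ht : 0 ≤ t) (s : Multiset ℝ) (h : ∀ y ∈ s, t ≤ y) :
    t ^ s.card ≤ s.prod := by
  induction s using Multiset.induction_on with
  | empty => simp
  | cons a s ih =>
    rw [Multiset.card_cons, Multiset.prod_cons, pow_succ']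
    have h1 := h a (Multiset.mem_cons_self a s)
    have h2 := ih fun y hy => h y (Multiset.mem_cons_of_mem hy)
    exact mul_le_mul h1 h2 (by positivity) (ht.trans h1)

theorem ms_prod_upper (s : Multiset ℝ) (h : ∀ y ∈ s, 0 ≤ y ∧ y ≤ 1) :
    0 ≤ s.prod ∧ s.prod ≤ 1 := by
  induction s using Multiset.induction_on with
  | empty => simp
  | cons a s ih =>
    rw [Multiset.prod_cons]
    have h1 := h a (Multiset.mem_cons_self a s)
    have h2 := ih fun y hy => h y (Multiset.mem_cons_of_mem hy)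
    exact ⟨mul_nonneg h1.1 h2.1, mul_le_one₀ h1.2 h2.1 h2.2⟩

/-- a binary form of degree `N` with a small value at a unit vector has a zero nearby -/
theorem form_zero (N : ℕ) (hN : 1 ≤ N) (f : ℂ × ℂ → ℂ) (W : ℂ[X]) (h1 : ∀ (a : ℂ) (p : ℂ × ℂ),
    f (a • p) = a ^ N * f p) (h2 : W.natDegree ≤ N) (h3 : ∀ ζ, W.eval ζ = f (ζ, 1))
    (h4 : W.coeff N = f (1, 0)) {a₀ : ℝ} (ha₀ : 0 < a₀) {p₀ : ℂ × ℂ} (hp₀ : nn p₀ = 1)
    (hf₀ : a₀ ≤ ‖f p₀‖) {p : ℂ × ℂ} (hp : nn p = 1) :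
    ∃ q : ℂ × ℂ, q ≠ 0 ∧ f q = 0 ∧ cho p q ^ N ≤ ‖f p‖ / a₀ := by
  have hW : W ≠ 0 := by
    rintro rfl
    have h5 : ∀ q : ℂ × ℂ, f q = 0 := by
      intro q
      by_cases hq : q.2 = 0
      · have e2 : q = q.1 • ((1, 0) : ℂ × ℂ) := by
          apply Prod.ext
          · simp
          · simp [hq]
        rw [e2, h1, ← h4]
        simp
      · have e2 : q = q.2 • ((q.1 / q.2, 1) : ℂ × ℂ) := by
          apply Prod.ext
          · simp [mul_div_cancel₀ _ hq]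
          · simp
        rw [e2, h1, ← h3]
        simp
    rw [h5, norm_zero] at hf₀
    linarith
  obtain ⟨A, s, hs, hs0, hfac⟩ := form_splits N f W h1 h2 h3 h4 hW
  obtain ⟨B, hB⟩ : ∃ B : ℝ, B = ‖A‖ * (s.map (fun c => nn c)).prod := ⟨_, rfl⟩
  have hnorm : ∀ q : ℂ × ℂ, nn q = 1 → ‖f q‖ = B * (s.map (fun c => cho q c)).prod := by
    intro q hq
    rw [hfac, norm_mul, hB, mul_assoc, ← Multiset.prod_map_mul]
    have e1 : ‖(s.map (fun c => cr q c)).prod‖ = (s.map (fun c => ‖cr q c‖)).prod := by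
      have e2 := map_multiset_prod (normHom : ℂ →*₀ ℝ) (s.map (fun c => cr q c))
      rw [Multiset.map_map] at e2
      exact e2
    rw [e1]
    congr 2
    apply Multiset.map_congr rfl
    intro c hc
    have h5 := nn_pos (hs0 c hc)
    rw [cho_eq, hq, one_mul, mul_div_cancel₀ _ h5.ne']
  have hchos : ∀ q : ℂ × ℂ, ∀ y ∈ s.map (fun c => cho q c), 0 ≤ y ∧ y ≤ 1 := by
    intro q y hy
    rw [Multiset.mem_map] at hy
    obtain ⟨c, -, rfl⟩ := hy
    exact ⟨cho_nonneg _ _, cho_le_one _ _⟩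
  have hB0 : 0 ≤ B := by
    rw [hB]
    apply mul_nonneg (norm_nonneg _)
    apply Multiset.prod_nonneg
    intro y hy
    rw [Multiset.mem_map] at hy
    obtain ⟨c, -, rfl⟩ := hy
    exact nn_nonneg _
  have hBa : a₀ ≤ B := by
    have h5 := hnorm p₀ hp₀
    have h6 := ms_prod_upper _ (hchos p₀)
    have h7 : B * (s.map (fun c => cho p₀ c)).prod ≤ B := mul_le_of_le_one_right hB0 h6.2
    linarith
  by_contra hcon
  push Not at hcon
  have hfc : ∀ c ∈ s, f c = 0 := by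
    intro c hc
    rw [hfac]
    have : (s.map (fun c' => cr c c')).prod = 0 := by
      apply Multiset.prod_eq_zero
      rw [Multiset.mem_map]
      exact ⟨c, hc, cr_self c⟩
    rw [this, mul_zero]
  obtain ⟨τ, hτ⟩ : ∃ τ : ℝ, τ = ‖f p‖ / a₀ := ⟨_, rfl⟩
  have hτ0 : 0 ≤ τ := by rw [hτ]; positivity
  have hlt : ∀ c ∈ s, τ < cho p c ^ N := fun c hc => by
    rw [hτ]
    exact hcon c (hs0 c hc) (hfc c hc)
  -- the minimum of the chordal distances
  have hne : s ≠ 0 := by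
    rintro rfl
    simp at hs
    omega
  obtain ⟨c₀, hc₀, hmin⟩ : ∃ c₀ ∈ s, ∀ c ∈ s, cho p c₀ ≤ cho p c := by
    have h5 : s.toFinset.Nonempty := by
      obtain ⟨c, hc⟩ := Multiset.exists_mem_of_ne_zero hne
      exact ⟨c, Multiset.mem_toFinset.2 hc⟩
    obtain ⟨c₀, h6, h7⟩ := Finset.exists_min_image s.toFinset (fun c => cho p c) h5
    exact ⟨c₀, Multiset.mem_toFinset.1 h6, fun c hc => h7 c (Multiset.mem_toFinset.2 hc)⟩
  have h5 := ms_prod_lower (cho_nonneg p c₀) (s.map (fun c => cho p c)) (by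
    intro y hy
    rw [Multiset.mem_map] at hy
    obtain ⟨c, hc, rfl⟩ := hy
    exact hmin c hc)
  rw [Multiset.card_map, hs] at h5
  have h6 := hnorm p hp
  have h7 := hlt c₀ hc₀
  have h8 : a₀ * cho p c₀ ^ N ≤ ‖f p‖ := by
    rw [h6]
    exact mul_le_mul hBa h5 (pow_nonneg (cho_nonneg _ _) _) hB0
  have h9 : cho p c₀ ^ N ≤ τ := by
    rw [hτ, le_div_iff₀ ha₀]
    linarith
  linarith

/-! ### The map -/

section map

variable {d : ℕ}

theorem exists_M (x : CV d) : ∃ M : ℝ, 1 ≤ M ∧ ∀ (w : CV d) (p : ℂ × ℂ), ‖w - x‖ ≤ 64 →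
    ‖p‖ ≤ 64 → ‖hF w p‖ ≤ M ∧ ‖wr w p‖ ≤ M := by
  have hc1 : Continuous (fun q : CV d × (ℂ × ℂ) => hF q.1 q.2) := (hF_contDiff d 1).continuous
  have hc2 : Continuous (fun q : CV d × (ℂ × ℂ) => wr q.1 q.2) := (wr_contDiff d 1).continuous
  have hK : IsCompact (closedBall ((x, 0) : CV d × (ℂ × ℂ)) 64) := isCompact_closedBall _ _
  obtain ⟨C1, hC1⟩ := hK.exists_bound_of_continuousOn hc1.continuousOn
  obtain ⟨C2, hC2⟩ := hK.exists_bound_of_continuousOn hc2.continuousOn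
  refine ⟨max 1 (max C1 C2), le_max_left _ _, fun w p hw hp => ?_⟩
  have hmem : ((w, p) : CV d × (ℂ × ℂ)) ∈ closedBall ((x, 0) : CV d × (ℂ × ℂ)) 64 := by
    rw [mem_closedBall, dist_eq_norm, Prod.mk_sub_mk, Prod.norm_def, sub_zero]
    exact max_le hw hp
  exact ⟨(hC1 _ hmem).trans ((le_max_left _ _).trans (le_max_right _ _)),
    (hC2 _ hmem).trans ((le_max_right _ _).trans (le_max_right _ _))⟩

variable {x : CV d} {M : ℝ} (hM1 : 1 ≤ M) (hM : ∀ (w : CV d) (p : ℂ × ℂ), ‖w - x‖ ≤ 64 →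
    ‖p‖ ≤ 64 → ‖hF w p‖ ≤ M ∧ ‖wr w p‖ ≤ M)

include hM1 hM

theorem lip_w {w z : CV d} (hw : ‖w - x‖ ≤ 1) (hz : ‖z - x‖ ≤ 1) {p : ℂ × ℂ} (hp : ‖p‖ ≤ 2) :
    ‖hF z p - hF w p‖ ≤ M * ‖z - w‖ ∧ ‖wr z p - wr w p‖ ≤ M * ‖z - w‖ := by
  have hmem : ∀ q ∈ ball ((x, 0) : CV d × (ℂ × ℂ)) 64, ‖q.1 - x‖ ≤ 64 ∧ ‖q.2‖ ≤ 64 := by
    intro q hq
    rw [mem_ball, dist_eq_norm] at hq
    have h1 := norm_fst_le (q - ((x, 0) : CV d × (ℂ × ℂ)))
    have h2 := norm_snd_le (q - ((x, 0) : CV d × (ℂ × ℂ)))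
    rw [Prod.fst_sub] at h1
    rw [Prod.snd_sub, sub_zero] at h2
    exact ⟨h1.trans hq.le, h2.trans hq.le⟩
  have hmem2 : ∀ y : CV d, ‖y - x‖ ≤ 1 →
      ((y, p) : CV d × (ℂ × ℂ)) ∈ ball ((x, 0) : CV d × (ℂ × ℂ)) (64 / 4) := by
    intro y hy
    rw [mem_ball, dist_eq_norm, Prod.mk_sub_mk, Prod.norm_def, sub_zero]
    exact lt_of_le_of_lt (max_le (hy.trans (by norm_num)) hp) (by norm_num)
  have hn : ‖((z, p) : CV d × (ℂ × ℂ)) - (w, p)‖ = ‖z - w‖ := by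
    rw [Prod.mk_sub_mk, sub_self, Prod.norm_def, norm_zero]
    exact max_eq_left (norm_nonneg _)
  have hle : 4 * M / 64 * ‖z - w‖ ≤ M * ‖z - w‖ := by
    apply mul_le_mul_of_nonneg_right _ (norm_nonneg _)
    linarith
  constructor
  · have h1 := Pool.Agent.H906.BD.lip_ball (f := fun q : CV d × (ℂ × ℂ) => hF q.1 q.2)
      (x := (x, 0)) (R := 64) (M := M)
      ((hF_contDiff d 1).differentiable (by norm_num)).differentiableOn
      (fun q hq => (hM q.1 q.2 (hmem q hq).1 (hmem q hq).2).1) (hmem2 w hw) (hmem2 z hz)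
    rw [hn] at h1
    exact h1.trans hle
  · have h1 := Pool.Agent.H906.BD.lip_ball (f := fun q : CV d × (ℂ × ℂ) => wr q.1 q.2)
      (x := (x, 0)) (R := 64) (M := M)
      ((wr_contDiff d 1).differentiable (by norm_num)).differentiableOn
      (fun q hq => (hM q.1 q.2 (hmem q hq).1 (hmem q hq).2).2) (hmem2 w hw) (hmem2 z hz)
    rw [hn] at h1
    exact h1.trans hle

theorem lip_p {w : CV d} (hw : ‖w - x‖ ≤ 1) {p q : ℂ × ℂ} (hp : ‖p‖ ≤ 2) (hq : ‖q‖ ≤ 2) :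
    ‖hF w q - hF w p‖ ≤ M * ‖q - p‖ := by
  have hmem : ∀ r ∈ ball (0 : ℂ × ℂ) 64, ‖hF w r‖ ≤ M := by
    intro r hr
    rw [mem_ball, dist_zero_right] at hr
    exact (hM w r (hw.trans (by norm_num)) hr.le).1
  have hmem2 : ∀ r : ℂ × ℂ, ‖r‖ ≤ 2 → r ∈ ball (0 : ℂ × ℂ) (64 / 4) := by
    intro r hr
    rw [mem_ball, dist_zero_right]
    linarith
  have h1 := Pool.Agent.H906.BD.lip_ball (f := hF w) (x := (0 : ℂ × ℂ)) (R := 64) (M := M)
    (differentiable_hF w).differentiableOn hmem (hmem2 p hp) (hmem2 q hq)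
  refine h1.trans (mul_le_mul_of_nonneg_right ?_ (norm_nonneg _))
  linarith

theorem tay_p {w : CV d} (hw : ‖w - x‖ ≤ 1) {p q : ℂ × ℂ} (hp : ‖p‖ ≤ 1) (hq : ‖q‖ ≤ 1) :
    ‖hF w q - hF w p - fderiv ℂ (hF w) p (q - p)‖ ≤ M * ‖q - p‖ ^ 2 := by
  have hmem : ∀ r ∈ ball (0 : ℂ × ℂ) 64, ‖hF w r‖ ≤ M := by
    intro r hr
    rw [mem_ball, dist_zero_right] at hr
    exact (hM w r (hw.trans (by norm_num)) hr.le).1
  have hmem2 : ∀ r : ℂ × ℂ, ‖r‖ ≤ 1 → r ∈ ball (0 : ℂ × ℂ) (64 / 32) := by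
    intro r hr
    rw [mem_ball, dist_zero_right]
    linarith
  have h1 := Pool.Agent.H906.BD.taylor2 (f := hF w) (x := (0 : ℂ × ℂ)) (R := 64) (M := M)
    (differentiable_hF w).differentiableOn hmem (hmem2 p hp) (hmem2 q hq)
  refine h1.trans (mul_le_mul_of_nonneg_right ?_ (by positivity))
  have h2 : 128 * M / 64 ^ 2 = M / 32 := by ring
  rw [h2]
  linarith

omit hM1 hM in
/-- orthogonal decomposition of a unit vector -/
theorem decomp {p q : ℂ × ℂ} (hp : nn p = 1) (hq : nn q = 1) : ∃ α : ℂ,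
    ‖α‖ ≤ 1 ∧ ‖q - α • p‖ ≤ ‖cr p q‖ ∧ (α = 0 → ‖cr p q‖ = 1) := by
  have hp2 : N2 p = 1 := by rw [← nn_sq, hp, one_pow]
  have hp3 : (starRingEnd ℂ) p.1 * p.1 + (starRingEnd ℂ) p.2 * p.2 = 1 := by
    rw [← Complex.normSq_eq_conj_mul_self, ← Complex.normSq_eq_conj_mul_self,
      Complex.normSq_eq_norm_sq, Complex.normSq_eq_norm_sq]
    have h1 : ‖p.1‖ ^ 2 + ‖p.2‖ ^ 2 = 1 := hp2
    exact_mod_cast h1
  obtain ⟨α, hα⟩ : ∃ α : ℂ, α = q.1 * (starRingEnd ℂ) p.1 + q.2 * (starRingEnd ℂ) p.2 := ⟨_, rfl⟩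
  obtain ⟨p', hp'⟩ : ∃ p' : ℂ × ℂ, p' = (-(starRingEnd ℂ) p.2, (starRingEnd ℂ) p.1) := ⟨_, rfl⟩
  have hdec : q = α • p + cr p q • p' := by
    apply Prod.ext
    · simp only [hα, hp', cr, Prod.fst_add, Prod.smul_fst, smul_eq_mul]
      linear_combination (-q.1) * hp3
    · simp only [hα, hp', cr, Prod.snd_add, Prod.smul_snd, smul_eq_mul]
      linear_combination (-q.2) * hp3
  have hnp' : nn p' = 1 := by
    unfold nn N2
    rw [hp']
    simp only [norm_neg, RCLike.norm_conj]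
    rw [add_comm]
    have h1 : ‖p.1‖ ^ 2 + ‖p.2‖ ^ 2 = 1 := hp2
    rw [h1, Real.sqrt_one]
  have hp'n : ‖p'‖ ≤ 1 := (norm_le_nn p').trans hnp'.le
  refine ⟨α, ?_, ?_, ?_⟩
  · -- `α` is a cross product with the vector `p'`
    have h1 : ‖cr (-p') q‖ ≤ nn (-p') * nn q := cr_le _ _
    have h2 : nn (-p') = 1 := by
      have h3 : -p' = (-1 : ℂ) • p' := by rw [neg_smul, one_smul]
      rw [h3, nn_smul, norm_neg, norm_one, one_mul, hnp']
    rw [h2, hq, one_mul] at h1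
    have h3 : cr (-p') q = α := by
      rw [hα, hp']
      simp only [cr, Prod.fst_neg, Prod.snd_neg]
      ring
    rwa [h3] at h1
  · have h1 : q - α • p = cr p q • p' := by
      rw [sub_eq_iff_eq_add, add_comm]
      exact hdec
    rw [h1, norm_smul]
    exact mul_le_of_le_one_right (norm_nonneg _) hp'n
  · intro h0
    rw [h0, zero_smul, zero_add] at hdec
    have h1 : nn q = ‖cr p q‖ * nn p' := by
      conv_lhs => rw [hdec]
      exact nn_smul _ _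
    rw [hq, hnp', mul_one] at h1
    exact h1.symm

omit hM1 hM in
theorem cr_sub_right (p q r : ℂ × ℂ) : cr p (q - r) = cr p q - cr p r := by
  simp only [cr, Prod.fst_sub, Prod.snd_sub]
  ring

omit hM1 hM in
/-- the chordal distance of the images is controlled by the cross product -/
theorem cho_le_cr {a b : ℂ × ℂ} {c₀ C : ℝ} (hc₀ : 0 < c₀) (ha : c₀ ≤ nn a) (hb : c₀ ≤ nn b)
    (hC : ‖cr a b‖ ≤ C) : cho a b ≤ C / c₀ ^ 2 := by
  rw [cho_eq]
  have h1 : c₀ ^ 2 ≤ nn a * nn b := by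
    rw [sq]
    exact mul_le_mul ha hb hc₀.le (hc₀.le.trans ha)
  have h2 : 0 < c₀ ^ 2 := by positivity
  have h3 : 0 < nn a * nn b := lt_of_lt_of_le h2 h1
  exact div_le_div₀ ((norm_nonneg _).trans hC) hC h2 h1

omit hM1 hM in
theorem cho_unit {p q : ℂ × ℂ} (hp : nn p = 1) (hq : nn q = 1) : cho p q = ‖cr p q‖ := by
  rw [cho_eq, hp, hq, mul_one, div_one]

theorem part2 {w : CV d} (hw : ‖w - x‖ ≤ 1) {c₀ : ℝ} (hc₀ : 0 < c₀)
    (hc : ∀ p, nn p = 1 → c₀ ≤ nn (hF w p)) {p q : ℂ × ℂ} (hp : nn p = 1) (hq : nn q = 1) :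
    cho (hF w p) (hF w q) ≤ 2 * M ^ 2 / c₀ ^ 2 * cho p q := by
  obtain ⟨α, hα1, hα2, -⟩ := decomp hp hq
  have hpn : ‖p‖ ≤ 1 := (norm_le_nn p).trans hp.le
  have hqn : ‖q‖ ≤ 1 := (norm_le_nn q).trans hq.le
  have hαn : ‖α • p‖ ≤ 1 := by
    rw [norm_smul]
    exact mul_le_one₀ hα1 (norm_nonneg _) hpn
  have h1 : cr (hF w p) (hF w q) = cr (hF w p) (hF w q - hF w (α • p)) := by
    rw [cr_sub_right, hF_smul, cr_smul_right, cr_self, mul_zero, sub_zero]
  have h2 := lip_p hM1 hM hw (hαn.trans (by norm_num)) (hqn.trans (by norm_num) : ‖q‖ ≤ 2)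
  have h3 : ‖hF w p‖ ≤ M := (hM w p (hw.trans (by norm_num)) (hpn.trans (by norm_num))).1
  have h4 : ‖cr (hF w p) (hF w q)‖ ≤ 2 * M ^ 2 * ‖cr p q‖ := by
    rw [h1]
    refine (norm_cr_le _ _).trans ?_
    have h5 : ‖hF w q - hF w (α • p)‖ ≤ M * ‖cr p q‖ :=
      h2.trans (mul_le_mul_of_nonneg_left hα2 (by linarith))
    calc 2 * ‖hF w p‖ * ‖hF w q - hF w (α • p)‖ ≤ 2 * M * (M * ‖cr p q‖) := by gcongr
      _ = 2 * M ^ 2 * ‖cr p q‖ := by ring
  have h5 := cho_le_cr hc₀ (hc p hp) (hc q hq) h4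
  rw [cho_unit hp hq]
  refine h5.trans (le_of_eq ?_)
  ring

theorem part3 {w z : CV d} (hw : ‖w - x‖ ≤ 1) (hz : ‖z - x‖ ≤ 1) {c₀ : ℝ} (hc₀ : 0 < c₀)
    (hcw : ∀ p, nn p = 1 → c₀ ≤ nn (hF w p)) (hcz : ∀ p, nn p = 1 → c₀ ≤ nn (hF z p))
    {p : ℂ × ℂ} (hp : nn p = 1) :
    cho (hF w p) (hF z p) ≤ 2 * M ^ 2 / c₀ ^ 2 * ‖w - z‖ := by
  have hpn : ‖p‖ ≤ 1 := (norm_le_nn p).trans hp.le
  have h1 : cr (hF w p) (hF z p) = cr (hF w p) (hF z p - hF w p) := by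
    rw [cr_sub_right, cr_self, sub_zero]
  have h2 := (lip_w hM1 hM hw hz (hpn.trans (by norm_num) : ‖p‖ ≤ 2)).1
  have h3 : ‖hF w p‖ ≤ M := (hM w p (hw.trans (by norm_num)) (hpn.trans (by norm_num))).1
  have h4 : ‖cr (hF w p) (hF z p)‖ ≤ 2 * M ^ 2 * ‖w - z‖ := by
    rw [h1]
    refine (norm_cr_le _ _).trans ?_
    rw [norm_sub_rev z w] at h2
    calc 2 * ‖hF w p‖ * ‖hF z p - hF w p‖ ≤ 2 * M * (M * ‖w - z‖) := by gcongr
      _ = 2 * M ^ 2 * ‖w - z‖ := by ring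
  have h5 := cho_le_cr hc₀ (hcw p hp) (hcz p hp) h4
  refine h5.trans (le_of_eq ?_)
  ring

theorem part4 (hd : 2 ≤ d) {z : CV d} (hz : ‖z - x‖ ≤ 1) {c₀ : ℝ} (hc₀ : 0 < c₀)
    (hc : ∀ p, nn p = 1 → c₀ ≤ nn (hF z p)) {p q : ℂ × ℂ} (hp : nn p = 1) (hq : nn q = 1)
    (hwr : wr z p = 0) :
    cho (hF z p) (hF z q) ≤ (1 + 2 * M ^ 2 / c₀ ^ 2) * cho p q ^ 2 := by
  obtain ⟨α, hα1, hα2, hα3⟩ := decomp hp hq
  have hK : 0 ≤ 2 * M ^ 2 / c₀ ^ 2 := by positivity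
  rw [cho_unit hp hq]
  by_cases hα : α = 0
  · rw [hα3 hα]
    have := cho_le_one (hF z p) (hF z q)
    linarith
  have hpn : ‖p‖ ≤ 1 := (norm_le_nn p).trans hp.le
  have hqn : ‖q‖ ≤ 1 := (norm_le_nn q).trans hq.le
  have hαn : ‖α • p‖ ≤ 1 := by
    rw [norm_smul]
    exact mul_le_one₀ hα1 (norm_nonneg _) hpn
  have hD : cr (hF z p) (fderiv ℂ (hF z) (α • p) (q - α • p)) = 0 := by
    have h1 := cr_fderiv z hd (α • p) (q - α • p)
    rw [(WR d z hd).1, hwr, mul_zero, zero_mul, hF_smul, cr_smul_right] at h1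
    have hd0 : (d : ℂ) ≠ 0 := by
      have : d ≠ 0 := by omega
      exact_mod_cast this
    have h2 := (mul_eq_zero.1 h1).resolve_left hd0
    have h3 := (mul_eq_zero.1 h2).resolve_left (pow_ne_zero _ hα)
    rw [cr_comm, h3, neg_zero]
  have h1 : cr (hF z p) (hF z q) =
      cr (hF z p) (hF z q - hF z (α • p) - fderiv ℂ (hF z) (α • p) (q - α • p)) := by
    rw [cr_sub_right, hD, cr_sub_right, hF_smul, cr_smul_right, cr_self, mul_zero, sub_zero,
      sub_zero]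
  have h2 := tay_p hM1 hM hz hαn hqn
  have h3 : ‖hF z p‖ ≤ M := (hM z p (hz.trans (by norm_num)) (hpn.trans (by norm_num))).1
  have h4 : ‖cr (hF z p) (hF z q)‖ ≤ 2 * M ^ 2 * ‖cr p q‖ ^ 2 := by
    rw [h1]
    refine (norm_cr_le _ _).trans ?_
    have h5 : ‖hF z q - hF z (α • p) - fderiv ℂ (hF z) (α • p) (q - α • p)‖ ≤
        M * ‖cr p q‖ ^ 2 :=
      h2.trans (mul_le_mul_of_nonneg_left (pow_le_pow_left₀ (norm_nonneg _) hα2 2) (by linarith))
    calc 2 * ‖hF z p‖ * ‖hF z q - hF z (α • p) - fderiv ℂ (hF z) (α • p) (q - α • p)‖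
        ≤ 2 * M * (M * ‖cr p q‖ ^ 2) := by gcongr
      _ = 2 * M ^ 2 * ‖cr p q‖ ^ 2 := by ring
  have h5 := cho_le_cr hc₀ (hc p hp) (hc q hq) h4
  refine h5.trans ?_
  have h6 : 2 * M ^ 2 * ‖cr p q‖ ^ 2 / c₀ ^ 2 = 2 * M ^ 2 / c₀ ^ 2 * ‖cr p q‖ ^ 2 := by ring
  rw [h6]
  apply mul_le_mul_of_nonneg_right _ (by positivity)
  linarith

theorem part5 (hd : 2 ≤ d) {w z : CV d} (hw : ‖w - x‖ ≤ 1) (hz : ‖z - x‖ ≤ 1) {a₀ : ℝ}
    (ha₀ : 0 < a₀) {p₀ : ℂ × ℂ} (hp₀ : nn p₀ = 1) (hf₀ : a₀ ≤ ‖wr z p₀‖) {p : ℂ × ℂ}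
    (hp : nn p = 1) (hwr : wr w p = 0) :
    ∃ q : ℂ × ℂ, q ≠ 0 ∧ wr z q = 0 ∧ cho p q ^ (2 * d - 2) ≤ M / a₀ * ‖w - z‖ := by
  obtain ⟨hh, ⟨W, hW1, hW2, hW3⟩, -⟩ := WR d z hd
  obtain ⟨q, hq, hq1, hq2⟩ := form_zero (2 * d - 2) (by omega) (wr z) W hh hW1 hW2 hW3 ha₀ hp₀
    hf₀ hp
  refine ⟨q, hq, hq1, hq2.trans ?_⟩
  have hpn : ‖p‖ ≤ 1 := (norm_le_nn p).trans hp.le
  have h2 := (lip_w hM1 hM hw hz (hpn.trans (by norm_num) : ‖p‖ ≤ 2)).2
  rw [hwr, sub_zero, norm_sub_rev z w] at h2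
  calc ‖wr z p‖ / a₀ ≤ M * ‖w - z‖ / a₀ := div_le_div_of_nonneg_right h2 ha₀.le
    _ = M / a₀ * ‖w - z‖ := by ring

end map

theorem nn_le_two (p : ℂ × ℂ) : nn p ≤ 2 * ‖p‖ := by
  unfold nn N2
  rw [Real.sqrt_le_left (by positivity)]
  have h1 : ‖p.1‖ ≤ ‖p‖ := norm_fst_le p
  have h2 : ‖p.2‖ ≤ ‖p‖ := norm_snd_le p
  nlinarith [norm_nonneg p.1, norm_nonneg p.2, norm_nonneg p]

theorem ne_of_unit {p : ℂ × ℂ} (hp : nn p = 1) : p ≠ 0 := by
  rintro rfl
  simp [nn, N2] at hp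

/-- the lower bound for a nondegenerate map -/
theorem exists_m {d : ℕ} (x : CV d) (hx : ND x) :
    ∃ m : ℝ, 0 < m ∧ ∀ p : ℂ × ℂ, nn p = 1 → m ≤ nn (hF x p) := by
  have hcont : Continuous (hF x) := (differentiable_hF x).continuous
  have hN2 : Continuous N2 := by
    unfold N2
    fun_prop
  have hnn : Continuous nn := by
    unfold nn
    exact hN2.sqrt
  have hcpt : IsCompact {p : ℂ × ℂ | nn p = 1} := by
    apply Metric.isCompact_of_isClosed_isBounded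
    · exact isClosed_eq hnn continuous_const
    · refine (Metric.isBounded_closedBall (x := (0 : ℂ × ℂ)) (r := 1)).subset ?_
      intro p hp
      have hp' : nn p = 1 := hp
      rw [mem_closedBall, dist_zero_right]
      exact (norm_le_nn p).trans (le_of_eq hp')
  obtain ⟨p0, hp0, hmin⟩ := hcpt.exists_isMinOn ⟨(1, 0), by simp [nn, N2]⟩
    (hnn.comp hcont).continuousOn
  have hp0' : p0 ≠ 0 := ne_of_unit hp0
  exact ⟨nn (hF x p0), nn_pos fun h => hp0' (hx _ h), fun p hp => hmin hp⟩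

end UE

open UE in
theorem t_UE : S_UE := by
  intro d x hd hx
  obtain ⟨M, hM1, hM⟩ := exists_M x
  obtain ⟨m, hm0, hm⟩ := exists_m x hx
  obtain ⟨ζ, hζ⟩ := wr_ne hd x hx
  -- a unit vector at which the Jacobian does not vanish
  have hζ0 : ((ζ, 1) : ℂ × ℂ) ≠ 0 := by
    intro h
    have := congrArg Prod.snd h
    simp at this
  obtain ⟨a, ha, hau⟩ := exists_unit hζ0
  obtain ⟨p₀, hp₀⟩ : ∃ p₀ : ℂ × ℂ, p₀ = a • ((ζ, 1) : ℂ × ℂ) := ⟨_, rfl⟩
  rw [← hp₀] at hau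
  have hwr0 : wr x p₀ ≠ 0 := by
    rw [hp₀, (WR d x hd).1]
    exact mul_ne_zero (pow_ne_zero _ ha) hζ
  obtain ⟨a₀, ha₀⟩ : ∃ a₀ : ℝ, a₀ = ‖wr x p₀‖ / 2 := ⟨_, rfl⟩
  have ha₀0 : 0 < a₀ := by
    rw [ha₀]
    have := norm_pos_iff.2 hwr0
    positivity
  obtain ⟨c₀, hc₀⟩ : ∃ c₀ : ℝ, c₀ = m / 2 := ⟨_, rfl⟩
  have hc₀0 : 0 < c₀ := by rw [hc₀]; positivity
  have hM0 : 0 < M := by linarith
  obtain ⟨η, hη⟩ : ∃ η : ℝ, η = min 1 (min (m / (4 * M)) (a₀ / M)) := ⟨_, rfl⟩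
  have hη0 : 0 < η := by
    rw [hη]
    refine lt_min one_pos (lt_min (by positivity) (by positivity))
  have hη1 : η ≤ 1 := by rw [hη]; exact min_le_left _ _
  have hη2 : M * η ≤ m / 4 := by
    have h1 : η ≤ m / (4 * M) := by
      rw [hη]
      exact (min_le_right _ _).trans (min_le_left _ _)
    calc M * η ≤ M * (m / (4 * M)) := mul_le_mul_of_nonneg_left h1 hM0.le
      _ = m / 4 := by field_simp
  have hη3 : M * η ≤ a₀ := by
    have h1 : η ≤ a₀ / M := by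
      rw [hη]
      exact (min_le_right _ _).trans (min_le_right _ _)
    calc M * η ≤ M * (a₀ / M) := mul_le_mul_of_nonneg_left h1 hM0.le
      _ = a₀ := by field_simp
  have hxx : ‖x - x‖ ≤ 1 := by simp
  -- uniform lower bounds
  have hlow : ∀ w : CV d, ‖w - x‖ ≤ η → ∀ p : ℂ × ℂ, nn p = 1 → c₀ ≤ nn (hF w p) := by
    intro w hw p hp
    have hpn : ‖p‖ ≤ 1 := (norm_le_nn p).trans hp.le
    have h1 := (lip_w hM1 hM (hw.trans hη1) hxx (hpn.trans (by norm_num) : ‖p‖ ≤ 2)).1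
    have h2 : hF x p = hF w p + (hF x p - hF w p) := by abel
    have h3 : nn (hF x p) ≤ nn (hF w p) + nn (hF x p - hF w p) := by
      conv_lhs => rw [h2]
      exact nn_add _ _
    have h4 := nn_le_two (hF x p - hF w p)
    have h5 := hm p hp
    have h6 : M * ‖x - w‖ ≤ m / 4 := by
      rw [norm_sub_rev]
      exact (mul_le_mul_of_nonneg_left hw hM0.le).trans hη2
    rw [hc₀]
    linarith
  have hlow2 : ∀ w : CV d, ‖w - x‖ ≤ η → a₀ ≤ ‖wr w p₀‖ := by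
    intro w hw
    have hpn : ‖p₀‖ ≤ 1 := (norm_le_nn p₀).trans hau.le
    have h1 := (lip_w hM1 hM (hw.trans hη1) hxx (hpn.trans (by norm_num) : ‖p₀‖ ≤ 2)).2
    have h2 : ‖wr x p₀‖ ≤ ‖wr w p₀‖ + ‖wr x p₀ - wr w p₀‖ := by
      have h3 : wr x p₀ = wr w p₀ + (wr x p₀ - wr w p₀) := by ring
      conv_lhs => rw [h3]
      exact norm_add_le _ _
    have h6 : M * ‖x - w‖ ≤ a₀ := by
      rw [norm_sub_rev]
      exact (mul_le_mul_of_nonneg_left hw hM0.le).trans hη3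
    have h7 : ‖wr x p₀‖ = 2 * a₀ := by rw [ha₀]; ring
    linarith
  obtain ⟨K, hK⟩ : ∃ K : ℝ, K = 1 + 2 * M ^ 2 / c₀ ^ 2 + M / a₀ := ⟨_, rfl⟩
  have hk1 : 0 ≤ 2 * M ^ 2 / c₀ ^ 2 := by positivity
  have hk2 : 0 ≤ M / a₀ := by positivity
  refine ⟨η, hη0, K, by rw [hK, ge_iff_le]; linarith, ?_, ?_, ?_, ?_, ?_⟩
  · intro w hw p hp
    by_contra hp0
    obtain ⟨b, hb, hbu⟩ := exists_unit hp0
    have h1 := hlow w hw _ hbu
    rw [hF_smul, hp, smul_zero] at h1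
    have h2 : nn (0 : ℂ × ℂ) = 0 := by simp [nn, N2]
    rw [h2] at h1
    linarith
  · intro w hw p q hp hq
    obtain ⟨b, hb, hbu⟩ := exists_unit hp
    obtain ⟨c, hc, hcu⟩ := exists_unit hq
    have h := part2 hM1 hM (hw.trans hη1) hc₀0 (hlow w hw) hbu hcu
    rw [hF_smul, hF_smul, cho_smul _ _ _ _ (pow_ne_zero _ hb) (pow_ne_zero _ hc),
      cho_smul _ _ _ _ hb hc] at h
    refine h.trans (mul_le_mul_of_nonneg_right ?_ (cho_nonneg _ _))
    rw [hK]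
    linarith
  · intro w z hw hz p hp
    obtain ⟨b, hb, hbu⟩ := exists_unit hp
    have h := part3 hM1 hM (hw.trans hη1) (hz.trans hη1) hc₀0 (hlow w hw) (hlow z hz) hbu
    rw [hF_smul, hF_smul, cho_smul _ _ _ _ (pow_ne_zero _ hb) (pow_ne_zero _ hb)] at h
    refine h.trans (mul_le_mul_of_nonneg_right ?_ (norm_nonneg _))
    rw [hK]
    linarith
  · intro z hz p q hp hq hwr
    obtain ⟨b, hb, hbu⟩ := exists_unit hp
    obtain ⟨c, hc, hcu⟩ := exists_unit hq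
    have h := part4 hM1 hM hd (hz.trans hη1) hc₀0 (hlow z hz) hbu hcu
      (by rw [(WR d z hd).1, hwr, mul_zero])
    rw [hF_smul, hF_smul, cho_smul _ _ _ _ (pow_ne_zero _ hb) (pow_ne_zero _ hc),
      cho_smul _ _ _ _ hb hc] at h
    refine h.trans (mul_le_mul_of_nonneg_right ?_ (by positivity))
    rw [hK]
    linarith
  · intro w z hw hz p hp hwr
    obtain ⟨b, hb, hbu⟩ := exists_unit hp
    obtain ⟨q, hq, hq1, hq2⟩ := part5 hM1 hM hd (hw.trans hη1) (hz.trans hη1) ha₀0 hau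
      (hlow2 z hz) hbu (by rw [(WR d w hd).1, hwr, mul_zero])
    refine ⟨q, hq, hq1, ?_⟩
    have h3 := cho_smul p q b 1 hb one_ne_zero
    rw [one_smul] at h3
    rw [h3] at hq2
    refine hq2.trans (mul_le_mul_of_nonneg_right ?_ (norm_nonneg _))
    rw [hK]
    linarith

end Pool.Agent.H233.HY211
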