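import Pool.Agent.H211.HY.Stm4
import Pool.Agent.H747.HY211.CHO
import Pool.Graph.R_seed8.H790R3.RB.TSP
import Pool.Graph.R_seed8.H790R3.RB.TPQ

/-! ATP for helper211: multipliers and derivatives in the plane versus homogeneous coordinates. -/

set_option autoImplicit false

open Topology Filter Metric Set MeasureTheory Polynomial
open scoped OnePoint

namespace Pool.Agent.H233.HY211

open Pool.Agent.H790R3.RB Pool.Agent.H211.HY Pool.Agent.H747.HY211.CHO
open Pool.Agent.H792R2.CE (Att sph rf sph_infty sph_coe)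

namespace ATP

theorem inf_ne : ((1, 0) : ℂ × ℂ) ≠ 0 := fun h => one_ne_zero (congrArg Prod.fst h)

theorem coe_ne (c : ℂ) : ((c, 1) : ℂ × ℂ) ≠ 0 := fun h => one_ne_zero (congrArg Prod.snd h)

variable {d : ℕ} (x : CV d)

theorem sph_eq : sph d (pol x 0) (pol x 1) = sp x := by
  funext z
  induction z using OnePoint.rec with
  | infty =>
    rw [sph_infty]
    unfold sp
    rw [SP.hc_infty, PQ.hF_inf, SP.pr_eq]
  | coe z =>
    rw [sph_coe]
    unfold sp
    rw [SP.hc_coe, PQ.hF_one, SP.pr_eq]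

theorem iter_pr (hd : 2 ≤ d) (hx : ND x) {p : ℂ × ℂ} (hp : p ≠ 0) (N : ℕ) :
    (sp x)^[N] (pr p) = pr ((hF x)^[N] p) :=
  (Pool.Agent.H790R3.RB.SP d x (by omega) hx).2.1 p hp N

/-! ### The chordal distance -/

theorem nn_le (q : ℂ × ℂ) : nn q ≤ ‖q.1‖ + ‖q.2‖ := by
  unfold nn N2
  refine Real.sqrt_le_iff.2 ⟨by positivity, ?_⟩
  nlinarith [mul_nonneg (norm_nonneg q.1) (norm_nonneg q.2)]

theorem cho_est {q z : ℂ × ℂ} (hq : q ≠ 0) (hz : z.2 ≠ 0)
    (h : cho q z * (1 + ‖z.1 / z.2‖) ≤ 1 / 2) : q.2 ≠ 0 ∧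
    ‖q.1 / q.2 - z.1 / z.2‖ ≤ 2 * (1 + ‖z.1 / z.2‖) ^ 2 * cho q z := by
  set a : ℂ := z.1 / z.2 with ha
  set A : ℝ := 1 + ‖a‖ with hA
  have hA0 : 0 < A := by
    have := norm_nonneg a
    linarith
  have hz0 : z ≠ 0 := fun h' => hz (by rw [h']; rfl)
  have hz1 : z.1 = a * z.2 := by
    rw [ha]
    field_simp
  have hz2 : 0 < ‖z.2‖ := norm_pos_iff.2 hz
  have h1 : nn z ≤ ‖z.2‖ * A := by
    refine (nn_le z).trans ?_
    rw [hz1, norm_mul, hA]
    linarith
  have h2 : ‖cr q z‖ = ‖q.1 - q.2 * a‖ * ‖z.2‖ := by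
    rw [← norm_mul]
    congr 1
    unfold cr
    rw [hz1]
    ring
  have h3 : ‖cr q z‖ = cho q z * (nn q * nn z) := by
    rw [cho_eq, div_mul_cancel₀]
    exact (mul_pos (nn_pos hq) (nn_pos hz0)).ne'
  have hc0 := cho_nonneg q z
  have h4 : ‖q.1 - q.2 * a‖ ≤ cho q z * A * nn q := by
    have h5 : ‖q.1 - q.2 * a‖ * ‖z.2‖ ≤ cho q z * A * nn q * ‖z.2‖ := by
      rw [← h2, h3]
      calc cho q z * (nn q * nn z) ≤ cho q z * (nn q * (‖z.2‖ * A)) := by
            refine mul_le_mul_of_nonneg_left ?_ hc0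
            exact mul_le_mul_of_nonneg_left h1 (nn_nonneg q)
        _ = _ := by ring
    exact le_of_mul_le_mul_right h5 hz2
  have h6 : nn q ≤ ‖q.1 - q.2 * a‖ + ‖q.2‖ * A := by
    have h7 : ‖q.1‖ ≤ ‖q.1 - q.2 * a‖ + ‖q.2‖ * ‖a‖ := by
      rw [← norm_mul]
      have := norm_add_le (q.1 - q.2 * a) (q.2 * a)
      rwa [sub_add_cancel] at this
    have := nn_le q
    rw [hA]
    linarith
  have h8 : ‖q.1 - q.2 * a‖ ≤ 2 * (cho q z * A) * A * ‖q.2‖ := by
    have h9 : cho q z * A * nn q ≤ cho q z * A * (‖q.1 - q.2 * a‖ + ‖q.2‖ * A) :=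
      mul_le_mul_of_nonneg_left h6 (by positivity)
    have h10 : cho q z * A * ‖q.1 - q.2 * a‖ ≤ 1 / 2 * ‖q.1 - q.2 * a‖ :=
      mul_le_mul_of_nonneg_right h (norm_nonneg _)
    nlinarith
  have hq2 : q.2 ≠ 0 := by
    intro h11
    rw [h11, norm_zero, mul_zero, zero_mul, sub_zero] at h8
    have h12 : q.1 = 0 := norm_le_zero_iff.1 h8
    exact hq (Prod.ext h12 h11)
  refine ⟨hq2, ?_⟩
  have h13 : q.1 / q.2 - a = (q.1 - q.2 * a) / q.2 := by
    field_simp
  rw [h13, norm_div, div_le_iff₀ (norm_pos_iff.2 hq2)]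
  calc _ ≤ _ := h8
    _ = _ := by ring

theorem tend_pr {p : ℕ → ℂ × ℂ} {z : ℂ × ℂ} (hp : ∀ k, p k ≠ 0) (hz : z.2 ≠ 0)
    (h : Tendsto (fun k => cho (p k) z) atTop (𝓝 0)) :
    Tendsto (fun k => pr (p k)) atTop (𝓝 (pr z)) := by
  set A : ℝ := 1 + ‖z.1 / z.2‖ with hA
  have h1 : Tendsto (fun k => cho (p k) z * A) atTop (𝓝 0) := by
    have := h.mul_const A
    rwa [zero_mul] at this
  have h2 : ∀ᶠ k in atTop, cho (p k) z * A ≤ 1 / 2 :=
    (h1.eventually (gt_mem_nhds (by norm_num : (0 : ℝ) < 1 / 2))).mono fun k hk => hk.le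
  have h3 : Tendsto (fun k => (p k).1 / (p k).2) atTop (𝓝 (z.1 / z.2)) := by
    rw [tendsto_iff_norm_sub_tendsto_zero]
    have h4 : Tendsto (fun k => 2 * A ^ 2 * cho (p k) z) atTop (𝓝 0) := by
      have := h.const_mul (2 * A ^ 2)
      rwa [mul_zero] at this
    refine squeeze_zero' (Eventually.of_forall fun k => norm_nonneg _) ?_ h4
    filter_upwards [h2] with k hk
    exact (cho_est (hp k) hz hk).2
  rw [SP.pr_ne hz]
  have h5 : Tendsto (fun k => (((p k).1 / (p k).2 : ℂ) : OnePoint ℂ)) atTop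
      (𝓝 ((z.1 / z.2 : ℂ) : OnePoint ℂ)) := (OnePoint.continuous_coe.tendsto _).comp h3
  refine h5.congr' ?_
  filter_upwards [h2] with k hk
  rw [SP.pr_ne (cho_est (hp k) hz hk).1]

/-! ### The derivative -/

theorem rf_iter (w : ℂ) (n : ℕ) (h : ∀ i ≤ n, ((hF x)^[i] (w, 1)).2 ≠ 0) :
    (rf (pol x 0) (pol x 1))^[n] w = ((hF x)^[n] (w, 1)).1 / ((hF x)^[n] (w, 1)).2 := by
  induction n with
  | zero => simp
  | succ n ih =>
    rw [Function.iterate_succ_apply', ih (fun i hi => h i (by omega)), Function.iterate_succ_apply']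
    have hB := h n (by omega)
    set p := (hF x)^[n] (w, 1) with hp
    have e1 : p = p.2 • ((p.1 / p.2, 1) : ℂ × ℂ) := by
      apply Prod.ext
      · show p.1 = p.2 * (p.1 / p.2)
        field_simp
      · show p.2 = p.2 * 1
        ring
    have e2 : hF x p = p.2 ^ d • hF x (p.1 / p.2, 1) := by
      conv_lhs => rw [e1]
      exact hF_smul x _ _
    rw [e2, PQ.hF_one]
    show (pol x 0).eval (p.1 / p.2) / (pol x 1).eval (p.1 / p.2) =
      (p.2 ^ d * (pol x 0).eval (p.1 / p.2)) / (p.2 ^ d * (pol x 1).eval (p.1 / p.2))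
    rw [mul_div_mul_left _ _ (pow_ne_zero _ hB)]

theorem der (hd : 2 ≤ d) (hx : ND x) (w : ℂ) (n : ℕ) (h : ∀ i ≤ n, ((hF x)^[i] (w, 1)).2 ≠ 0) :
    ‖deriv ((rf (pol x 0) (pol x 1))^[n]) w‖ * (1 + ‖w‖ ^ 2) =
      sdn x n (w, 1) * (1 + ‖(rf (pol x 0) (pol x 1))^[n] w‖ ^ 2) := by
  have hdg : Differentiable ℂ (fun ζ : ℂ => ((ζ, 1) : ℂ × ℂ)) :=
    differentiable_id.prodMk (differentiable_const _)
  have hdi : ∀ i, Differentiable ℂ (fun ζ : ℂ => (hF x)^[i] (ζ, 1)) := fun i =>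
    (differentiable_iter x i).comp hdg
  have hev : ∀ᶠ ζ in 𝓝 w, ∀ i ∈ Finset.range (n + 1), ((hF x)^[i] (ζ, 1)).2 ≠ 0 := by
    rw [Filter.eventually_all_finset]
    intro i hi
    have hc : ContinuousAt (fun ζ : ℂ => ((hF x)^[i] (ζ, 1)).2) w :=
      (continuous_snd.comp (hdi i).continuous).continuousAt
    exact hc.eventually_ne (h i (by have := Finset.mem_range.1 hi; omega))
  have heq : (rf (pol x 0) (pol x 1))^[n] =ᶠ[𝓝 w]
      fun ζ => ((hF x)^[n] (ζ, 1)).1 / ((hF x)^[n] (ζ, 1)).2 := by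
    filter_upwards [hev] with ζ hζ
    exact rf_iter x ζ n fun i hi => hζ i (Finset.mem_range.2 (by omega))
  have hB := h n le_rfl
  set H : ℂ → ℂ × ℂ := fun ζ => (hF x)^[n] (ζ, 1) with hH
  have hHd : HasDerivAt H (deriv H w) w := (hdi n w).hasDerivAt
  have hA' : HasDerivAt (fun ζ => (H ζ).1) (deriv H w).1 w :=
    (ContinuousLinearMap.fst ℂ ℂ ℂ).hasFDerivAt.comp_hasDerivAt w hHd
  have hB' : HasDerivAt (fun ζ => (H ζ).2) (deriv H w).2 w :=
    (ContinuousLinearMap.snd ℂ ℂ ℂ).hasFDerivAt.comp_hasDerivAt w hHd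
  have hB0 : (H w).2 ≠ 0 := hB
  have hder : deriv ((rf (pol x 0) (pol x 1))^[n]) w = cr (deriv H w) (H w) / (H w).2 ^ 2 := by
    rw [heq.deriv_eq]
    have h1 : HasDerivAt (fun ζ => (H ζ).1 / (H ζ).2)
        (((deriv H w).1 * (H w).2 - (H w).1 * (deriv H w).2) / (H w).2 ^ 2) w := hA'.div hB' hB0
    have h2 := h1.deriv
    have h3 : deriv (fun ζ => ((hF x)^[n] (ζ, 1)).1 / ((hF x)^[n] (ζ, 1)).2) w =
        ((deriv H w).1 * (H w).2 - (H w).1 * (deriv H w).2) / (H w).2 ^ 2 := h2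
    rw [h3]
    unfold cr
    ring
  have hsp : spd H w = sdn x n (w, 1) * spd (fun ζ : ℂ => ((ζ, 1) : ℂ × ℂ)) w :=
    spd_iter x hd hx (fun ζ : ℂ => ((ζ, 1) : ℂ × ℂ)) w n (hdg w) (coe_ne w)
  have hs1 : spd (fun ζ : ℂ => ((ζ, 1) : ℂ × ℂ)) w = 1 / (1 + ‖w‖ ^ 2) := by
    have h1 : HasDerivAt (fun ζ : ℂ => ((ζ, 1) : ℂ × ℂ)) (1, 0) w :=
      (hasDerivAt_id w).prodMk (hasDerivAt_const w 1)
    unfold spd
    rw [h1.deriv]
    unfold cr N2
    simp only [mul_one, zero_mul, sub_zero, norm_one, one_pow]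
    rw [add_comm]
  have hval : (rf (pol x 0) (pol x 1))^[n] w = (H w).1 / (H w).2 := rf_iter x w n h
  rw [hder, hval]
  rw [hs1] at hsp
  unfold spd at hsp
  have hN : 0 < N2 (H w) := N2_pos (hx.iter_ne n (coe_ne w))
  have hw : (0 : ℝ) < 1 + ‖w‖ ^ 2 := by positivity
  have hBn : 0 < ‖(H w).2‖ := norm_pos_iff.2 hB0
  rw [div_eq_iff hN.ne'] at hsp
  rw [norm_div, norm_pow, hsp, norm_div]
  unfold N2
  field_simp
  ring

/-! ### Periodic points -/

theorem cr_inf (p : ℂ × ℂ) : cr p (1, 0) = -p.2 := by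
  unfold cr
  ring

theorem orb_inf (hd : 2 ≤ d) (hx : ND x) (hA : ATN x) (m : ℕ) (hm : 1 ≤ m) :
    ((hF x)^[m] (1, 0)).2 ≠ 0 := by
  intro h0
  obtain ⟨n, hn, z, hz, hcr, -, hfin, hlim⟩ := hA
  have h1 : cr ((hF x)^[m] (1, 0)) (1, 0) = 0 := by rw [cr_inf, h0, neg_zero]
  have h2 : ∀ j : ℕ, cr ((hF x)^[m * j] (1, 0)) (1, 0) = 0 := by
    intro j
    induction j with
    | zero => simp [cr]
    | succ j ih =>
      have h3 : (hF x)^[m * (j + 1)] (1, 0) = (hF x)^[m] ((hF x)^[m * j] (1, 0)) := by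
        rw [← Function.iterate_add_apply]
        congr 1
        ring
      rw [h3]
      exact cr_trans (hx.iter_ne m inf_ne) (cr_it x hd m _ _ ih) h1
  have h4 : ∀ j : ℕ, cho ((hF x)^[n * (m * j)] (1, 0)) z = cho (1, 0) z := by
    intro j
    have h5 : cr ((hF x)^[n * (m * j)] (1, 0)) (1, 0) = 0 := by
      have e : n * (m * j) = m * (n * j) := by ring
      rw [e]
      exact h2 (n * j)
    obtain ⟨a, ha, e⟩ := (cr_eq_zero_iff (hx.iter_ne _ inf_ne) inf_ne).1 h5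
    rw [e]
    have := cho_smul (1, 0) z a 1 ha one_ne_zero
    rwa [one_smul] at this
  have h6 : Tendsto (fun j : ℕ => m * j) atTop atTop :=
    tendsto_atTop_mono (fun j => Nat.le_mul_of_pos_left j hm) tendsto_id
  have h7 := hlim.comp h6
  have h8 : Tendsto (fun _ : ℕ => cho (1, 0) z) atTop (𝓝 0) := by
    refine h7.congr fun j => ?_
    exact h4 j
  have h9 : cho (1, 0) z = 0 := tendsto_nhds_unique tendsto_const_nhds h8
  rw [cho_eq_zero inf_ne hz] at h9
  have h10 : z.2 = 0 := by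
    have : cr (1, 0) z = z.2 := by
      unfold cr
      ring
    rwa [this] at h9
  exact hfin 0 h10

/-- the cycles avoid infinity -/
theorem cyc_fin (hd : 2 ≤ d) (hx : ND x) (hA : ATN x) {n : ℕ} (hn : 0 < n) {z : ℂ × ℂ} (hz : z ≠ 0)
    (hcr : cr ((hF x)^[n] z) z = 0) (i : ℕ) : ((hF x)^[i] z).2 ≠ 0 := by
  intro h0
  have hq : cr ((hF x)^[i] z) (1, 0) = 0 := by rw [cr_inf, h0, neg_zero]
  have h1 : cr ((hF x)^[n] ((hF x)^[i] z)) ((hF x)^[i] z) = 0 := by
    rw [← Function.iterate_add_apply, add_comm, Function.iterate_add_apply]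
    exact cr_it x hd i _ _ hcr
  have h2 : cr ((hF x)^[n] (1, 0)) ((hF x)^[n] ((hF x)^[i] z)) = 0 := by
    refine cr_it x hd n _ _ ?_
    rw [cr_comm, hq, neg_zero]
  have h3 : cr ((hF x)^[n] (1, 0)) (1, 0) = 0 :=
    cr_trans (hx.iter_ne i hz) (cr_trans (hx.iter_ne n (hx.iter_ne i hz)) h2 h1) hq
  rw [cr_inf, neg_eq_zero] at h3
  exact orb_inf x hd hx hA n hn h3

/-- attracting cycles in the plane -/
theorem att_of (hd : 2 ≤ d) (hx : ND x) {n : ℕ} (hn : 0 < n) {z c : ℂ × ℂ} (hz : z ≠ 0)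
    (hc : c ≠ 0) (hcr : cr ((hF x)^[n] z) z = 0) (hs : sdn x n z < 1)
    (hfin : ∀ i : ℕ, ((hF x)^[i] z).2 ≠ 0)
    (hlim : Tendsto (fun k : ℕ => cho ((hF x)^[n * k] c) z) atTop (𝓝 0)) :
    Att d (pol x 0) (pol x 1) (pr c) := by
  have hz2 : z.2 ≠ 0 := hfin 0
  have hzp : pr z = ((z.1 / z.2 : ℂ) : OnePoint ℂ) := SP.pr_ne hz2
  have hzs : z = z.2 • ((z.1 / z.2, 1) : ℂ × ℂ) := by
    apply Prod.ext
    · show z.1 = z.2 * (z.1 / z.2)
      field_simp
    · show z.2 = z.2 * 1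
      ring
  have hfin' : ∀ i : ℕ, ((hF x)^[i] (z.1 / z.2, 1)).2 ≠ 0 := by
    intro i h0
    apply hfin i
    rw [hzs, hF_iter_smul]
    show z.2 ^ d ^ i * ((hF x)^[i] (z.1 / z.2, 1)).2 = 0
    rw [h0, mul_zero]
  refine ⟨n, hn, z.1 / z.2, ?_, ?_, ?_, ?_⟩
  · intro i
    rw [sph_eq, ← hzp, iter_pr x hd hx hz, SP.pr_ne (hfin i)]
    exact OnePoint.coe_ne_infty _
  · rw [sph_eq, ← hzp, iter_pr x hd hx hz]
    exact (SP.pr_eq_iff (hx.iter_ne n hz) hz).2 hcr
  · have h1 := der x hd hx (z.1 / z.2) n fun i _ => hfin' i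
    have h2 : (rf (pol x 0) (pol x 1))^[n] (z.1 / z.2) = z.1 / z.2 := by
      rw [rf_iter x _ n fun i _ => hfin' i]
      have h3 : cr ((hF x)^[n] (z.1 / z.2, 1)) (z.1 / z.2, 1) = 0 := by
        have h4 := hcr
        rw [hzs, hF_iter_smul, cr_smul_left, cr_smul_right] at h4
        rcases mul_eq_zero.1 h4 with h5 | h5
        · exact absurd h5 (pow_ne_zero _ hz2)
        · exact (mul_eq_zero.1 h5).resolve_left hz2
      unfold cr at h3
      simp only [mul_one] at h3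
      rw [div_eq_iff (hfin' n)]
      linear_combination h3
    have h5 : sdn x n (z.1 / z.2, 1) = sdn x n z := by
      conv_rhs => rw [hzs]
      rw [sdn_smul x hd n _ hz2]
    rw [h2, h5] at h1
    have h6 : (0 : ℝ) < 1 + ‖z.1 / z.2‖ ^ 2 := by positivity
    rw [mul_right_cancel₀ h6.ne' h1]
    exact hs
  · rw [sph_eq, ← hzp]
    have h1 := tend_pr (fun k => hx.iter_ne (n * k) hc) hz2 hlim
    refine h1.congr fun k => ?_
    rw [iter_pr x hd hx hc]

/-- the multiplier is the same along the cycle -/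
theorem sdn_shift (hd : 2 ≤ d) (hx : ND x) {n : ℕ} (hn : 0 < n) {z : ℂ × ℂ} (hz : z ≠ 0)
    (hcr : cr ((hF x)^[n] z) z = 0) : sdn x n (hF x z) = sdn x n z := by
  have h1 : sd x ((hF x)^[n] z) = sd x z := by
    obtain ⟨a, ha, e⟩ := (cr_eq_zero_iff (hx.iter_ne n hz) hz).1 hcr
    rw [e, sd_smul x hd a ha]
  have h2 : sdn x n (hF x z) = ∏ j ∈ Finset.range n, sd x ((hF x)^[j + 1] z) := by
    unfold sdn
    refine Finset.prod_congr rfl fun j _ => ?_
    rw [Function.iterate_succ_apply]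
  have h3 := Finset.prod_range_succ (fun j => sd x ((hF x)^[j] z)) n
  have h4 := Finset.prod_range_succ' (fun j => sd x ((hF x)^[j] z)) n
  rw [h3] at h4
  simp only [Function.iterate_zero, id] at h4
  rw [h1] at h4
  by_cases h0 : sd x z = 0
  · rw [h2]
    unfold sdn
    rw [Finset.prod_eq_zero (i := n - 1) (Finset.mem_range.2 (by omega)),
      Finset.prod_eq_zero (i := 0) (Finset.mem_range.2 hn)]
    · exact h0
    · have : n - 1 + 1 = n := by omega
      rw [this, h1, h0]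
  · rw [h2]
    unfold sdn
    exact (mul_right_cancel₀ h0 h4).symm

theorem sdn_shift_iter (hd : 2 ≤ d) (hx : ND x) {n : ℕ} (hn : 0 < n) {z : ℂ × ℂ} (hz : z ≠ 0)
    (hcr : cr ((hF x)^[n] z) z = 0) (r : ℕ) : sdn x n ((hF x)^[r] z) = sdn x n z ∧
      cr ((hF x)^[n] ((hF x)^[r] z)) ((hF x)^[r] z) = 0 := by
  have h1 : ∀ r, cr ((hF x)^[n] ((hF x)^[r] z)) ((hF x)^[r] z) = 0 := by
    intro r
    rw [← Function.iterate_add_apply, add_comm, Function.iterate_add_apply]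
    exact cr_it x hd r _ _ hcr
  refine ⟨?_, h1 r⟩
  induction r with
  | zero => rfl
  | succ r ih =>
    rw [Function.iterate_succ_apply', sdn_shift x hd hx hn (hx.iter_ne r hz) (h1 r), ih]

/-- a point whose orbit contains infinity is attracted -/
theorem hit_inf (hd : 2 ≤ d) (hx : ND x) (hA : ATN x) {c : ℂ × ℂ} (hc : c ≠ 0) {i : ℕ}
    (hi : ((hF x)^[i] c).2 = 0) : AT x c := by
  obtain ⟨n, hn, z, hz, hcr, hs, -, hlim⟩ := hA
  obtain ⟨K, hK⟩ := lip x hx
  -- `r + i = n m`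
  set m : ℕ := i with hm
  set r : ℕ := n * m - i with hr
  have hrm : r + i = n * m := by
    have : i ≤ n * m := by
      rw [hm]
      exact Nat.le_mul_of_pos_left i hn
    omega
  obtain ⟨s1, s2⟩ := sdn_shift_iter x hd hx hn hz hcr r
  refine ⟨n, hn, (hF x)^[r] z, hx.iter_ne r hz, s2, by rw [s1]; exact hs, ?_⟩
  have hLip : ∀ (r : ℕ) (p q : ℂ × ℂ), p ≠ 0 → q ≠ 0 →
      cho ((hF x)^[r] p) ((hF x)^[r] q) ≤ |K| ^ r * cho p q := by
    intro r
    induction r with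
    | zero => intro p q _ _; simp
    | succ r ih =>
      intro p q hp hq
      rw [Function.iterate_succ_apply', Function.iterate_succ_apply']
      calc cho (hF x ((hF x)^[r] p)) (hF x ((hF x)^[r] q)) ≤
            K * cho ((hF x)^[r] p) ((hF x)^[r] q) := hK _ _ (hx.iter_ne r hp) (hx.iter_ne r hq)
        _ ≤ |K| * cho ((hF x)^[r] p) ((hF x)^[r] q) :=
            mul_le_mul_of_nonneg_right (le_abs_self K) (cho_nonneg _ _)
        _ ≤ |K| * (|K| ^ r * cho p q) := mul_le_mul_of_nonneg_left (ih p q hp hq) (abs_nonneg K)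
        _ = _ := by ring
  have hic : cr ((hF x)^[i] c) (1, 0) = 0 := by rw [cr_inf, hi, neg_zero]
  obtain ⟨a, ha, hae⟩ := (cr_eq_zero_iff (hx.iter_ne i hc) inf_ne).1 hic
  have h1 : ∀ k : ℕ, cho ((hF x)^[n * (k + m)] c) ((hF x)^[r] z) ≤
      |K| ^ r * cho ((hF x)^[n * k] (1, 0)) z := by
    intro k
    have h2 : (hF x)^[n * (k + m)] c = a ^ d ^ (r + n * k) • (hF x)^[r] ((hF x)^[n * k] (1, 0)) := by
      have e : n * (k + m) = (r + n * k) + i := by
        rw [mul_add, ← hrm]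
        ring
      rw [e, Function.iterate_add_apply, hae, hF_iter_smul, Function.iterate_add_apply]
    have h3 := cho_smul ((hF x)^[r] ((hF x)^[n * k] (1, 0))) ((hF x)^[r] z) (a ^ d ^ (r + n * k)) 1
      (pow_ne_zero _ ha) one_ne_zero
    rw [one_smul] at h3
    rw [h2, h3]
    exact hLip r _ _ (hx.iter_ne _ inf_ne) hz
  have h2 : Tendsto (fun k : ℕ => cho ((hF x)^[n * (k + m)] c) ((hF x)^[r] z)) atTop (𝓝 0) := by
    have h3 := hlim.const_mul (|K| ^ r)
    rw [mul_zero] at h3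
    exact squeeze_zero (fun k => cho_nonneg _ _) h1 h3
  exact (tendsto_add_atTop_iff_nat (f := fun k => cho ((hF x)^[n * k] c) ((hF x)^[r] z)) m).1 h2

end ATP

open ATP in
theorem t_ATP : S_ATP := by
  intro d x hd hx hA
  have hQd : (pol x 1).coeff d ≠ 0 := by
    have h1 := orb_inf x hd hx hA 1 le_rfl
    rw [Function.iterate_one, PQ.hF_inf] at h1
    exact h1
  refine ⟨?_, ?_, ?_⟩
  · exact le_antisymm (PQ.pol_natDegree x 1) (Polynomial.le_natDegree_of_ne_zero hQd)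
  · obtain ⟨n, hn, z, hz, hcr, hs, hfin, hlim⟩ := hA
    have h1 := att_of x hd hx hn hz inf_ne hcr hs hfin hlim
    rwa [SP.pr_zero (p := (1, 0)) rfl] at h1
  · intro c hc
    have hprc : pr (c, 1) = (c : OnePoint ℂ) := by
      rw [SP.pr_ne (p := (c, 1)) one_ne_zero]
      simp
    have hAT : AT x (c, 1) → Att d (pol x 0) (pol x 1) (c : OnePoint ℂ) := by
      rintro ⟨n, hn, z, hz, hcr, hs, hlim⟩
      rw [← hprc]
      exact att_of x hd hx hn hz (coe_ne c) hcr hs (cyc_fin x hd hx hA hn hz hcr) hlim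
    rcases hc with hc | hc
    · exact Or.inl (hAT hc)
    · by_cases hfin : ∃ i, ((hF x)^[i] (c, 1)).2 = 0
      · obtain ⟨i, hi⟩ := hfin
        exact Or.inl (hAT (hit_inf x hd hx hA (coe_ne c) hi))
      · push Not at hfin
        right
        obtain ⟨C, hC, μ, hμ, hgr⟩ := hc
        have hQc : (pol x 1).eval c ≠ 0 := by
          have h1 := hfin 1
          rw [Function.iterate_one, PQ.hF_one] at h1
          exact h1
        set w : ℂ := rf (pol x 0) (pol x 1) c with hw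
        have hv : hF x (c, 1) = (pol x 1).eval c • ((w, 1) : ℂ × ℂ) := by
          rw [PQ.hF_one]
          apply Prod.ext
          · show (pol x 0).eval c = (pol x 1).eval c * ((pol x 0).eval c / (pol x 1).eval c)
            field_simp
          · show (pol x 1).eval c = (pol x 1).eval c * 1
            ring
        have hwf : ∀ i : ℕ, ((hF x)^[i] (w, 1)).2 ≠ 0 := by
          intro i h0
          apply hfin (i + 1)
          rw [Function.iterate_succ_apply, hv, hF_iter_smul]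
          show (pol x 1).eval c ^ d ^ i * ((hF x)^[i] (w, 1)).2 = 0
          rw [h0, mul_zero]
        have hlow : ∀ n : ℕ, C / (1 + ‖w‖ ^ 2) * μ ^ n ≤
            ‖deriv ((rf (pol x 0) (pol x 1))^[n]) w‖ := by
          intro n
          have h1 := der x hd hx w n fun i _ => hwf i
          have h2 := hgr n
          rw [hv, sdn_smul x hd n _ hQc] at h2
          have h3 : (0 : ℝ) < 1 + ‖w‖ ^ 2 := by positivity
          rw [div_mul_eq_mul_div, div_le_iff₀ h3, h1]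
          have h4 : 0 ≤ sdn x n (w, 1) := le_trans (by positivity) h2
          have h5 : (1 : ℝ) ≤ 1 + ‖(rf (pol x 0) (pol x 1))^[n] w‖ ^ 2 := by
            have := sq_nonneg ‖(rf (pol x 0) (pol x 1))^[n] w‖
            linarith
          calc C * μ ^ n ≤ sdn x n (w, 1) := h2
            _ ≤ _ := le_mul_of_one_le_right h4 h5
        have hC' : 0 < C / (1 + ‖w‖ ^ 2) := by positivity
        refine ⟨(1 + μ) / 2, by linarith, ?_⟩
        have h6 : Tendsto (fun n : ℕ => ((1 + μ) / 2 / μ) ^ n) atTop (𝓝 0) := by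
          refine tendsto_pow_atTop_nhds_zero_of_lt_one (by positivity) ?_
          rw [div_lt_one (by linarith)]
          linarith
        filter_upwards [h6.eventually (gt_mem_nhds hC')] with n hn
        have h7 : ((1 + μ) / 2) ^ n = ((1 + μ) / 2 / μ) ^ n * μ ^ n := by
          rw [← mul_pow]
          congr 1
          field_simp
        rw [h7]
        exact (mul_le_mul_of_nonneg_right hn.le (by positivity)).trans (hlow n)

end Pool.Agent.H233.HY211
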